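import Pool.Agent.MP_c1891a_nt.G43.Bas

/-
The lattice of relations of a large zero of the pair has full rank.
-/

namespace Pool.Agent.MP_c1891a_nt.G43

open Finset Module Polynomial

section

variable {Λ F : Type} [AddCommGroup Λ] [Field F] [Algebra ℂ F]

/-- the matroid of algebraic independence. -/
noncomputable abbrev pairTM (F : Type) [Field F] [Algebra ℂ F] : Matroid F :=
  AlgebraicIndependent.matroid ℂ F

lemma pairT_mem {A : Set F} {a : F} :
    a ∈ (pairTM F).closure A ↔ IsAlgebraic (Algebra.adjoin ℂ A) a := by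
  rw [AlgebraicIndependent.matroid_closure_eq]; rfl

lemma pairT_sub (A : Set F) : A ⊆ (pairTM F).closure A :=
  (pairTM F).subset_closure A (Set.subset_univ _)

lemma pairT_mul {A : Set F} {a b : F} (ha : a ∈ (pairTM F).closure A)
    (hb : b ∈ (pairTM F).closure A) : a * b ∈ (pairTM F).closure A :=
  pairT_mem.2 ((pairT_mem.1 ha).mul (pairT_mem.1 hb))

lemma pairT_zpow {A : Set F} {a : F} (ha : a ∈ (pairTM F).closure A) (k : ℤ) :
    a ^ k ∈ (pairTM F).closure A := by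
  rw [pairT_mem] at ha ⊢
  obtain ⟨n, rfl | rfl⟩ := k.eq_nat_or_neg
  · rw [zpow_natCast]; exact ha.pow n
  · rw [zpow_neg, zpow_natCast]; exact (ha.pow n).inv

lemma pairT_root {A : Set F} {a : F} {k : ℤ} (hk : k ≠ 0) (ha : a ^ k ∈ (pairTM F).closure A) :
    a ∈ (pairTM F).closure A := by
  have h := pairT_zpow ha k
  rw [← zpow_mul, ← Int.natAbs_mul_self, zpow_natCast, pairT_mem] at h
  exact pairT_mem.2 (h.of_pow (Nat.pos_of_ne_zero (by simpa using hk)))

lemma pairT_alg {A : Set F} {a : F} (ha : IsAlgebraic ℂ a) : a ∈ (pairTM F).closure A :=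
  pairT_mem.2 (ha.extendScalars (algebraMap ℂ _).injective)

lemma pairT_td {x : AddChar Λ F} {n : ℕ} : TD x n ↔ (n : ℕ∞) ≤ (pairTM F).eRk (Set.range x) := by
  rw [Matroid.le_eRk_iff]
  constructor
  · rintro ⟨l, hl⟩
    refine ⟨Set.range fun k => x (l k), by rintro _ ⟨k, rfl⟩; exact ⟨_, rfl⟩,
      hl.to_subtype_range, ?_⟩
    rw [← Set.image_univ, hl.injective.injOn.encard_image]
    simp
  · rintro ⟨I, hI, hi, hn⟩
    have hf : I.Finite := Set.finite_of_encard_eq_coe hn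
    have hc : Nat.card I = n := by
      rw [← hf.cast_ncard_eq, Nat.cast_inj] at hn
      exact hn
    have := hf.to_subtype
    let e : Fin n ≃ I := (Finite.equivFinOfCardEq hc).symm
    choose l hl using fun k => hI (e k).2
    refine ⟨l, ?_⟩
    simp only [hl]
    exact AlgebraicIndependent.comp (x := fun a : I => (a : F)) hi e e.injective

lemma pairT_fin {x : AddChar Λ F} {c d : ℕ} (h : ∀ n, TD x n → n + c ≤ d) :
    ∃ n : ℕ, (pairTM F).eRk (Set.range x) = n ∧ n + c ≤ d := by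
  cases hr : (pairTM F).eRk (Set.range x) with
  | top => have := h (d + 1) (pairT_td.2 (hr ▸ le_top)); omega
  | coe n => exact ⟨n, rfl, h n (pairT_td.2 hr.ge)⟩

lemma pairT_sup [Module.Finite ℤ Λ] (P : Submodule ℤ Λ) {v : Λ}
    (hv : ∀ a : ℤ, a ≠ 0 → a • v ∉ P) :
    finrank ℤ P + 1 ≤ finrank ℤ ↥(P ⊔ Submodule.span ℤ {v}) := by
  set Q := P ⊔ Submodule.span ℤ {v}
  have h1 := (P.submoduleOf Q).finrank_quotient_add_finrank
  have h2 : finrank ℤ (P.submoduleOf Q) = finrank ℤ P :=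
    (Submodule.submoduleOfEquivOfLe (le_sup_left : P ≤ Q)).finrank_eq
  have h3 : finrank ℤ (Q ⧸ P.submoduleOf Q) ≠ 0 := fun h0 => by
    obtain ⟨a, ha, h⟩ := Module.finrank_eq_zero_iff.1 h0 (Submodule.Quotient.mk
      ⟨v, Submodule.mem_sup_right (Submodule.mem_span_singleton_self v)⟩)
    rw [← Submodule.Quotient.mk_smul, Submodule.Quotient.mk_eq_zero] at h
    exact hv a ha h
  omega

lemma pairT_rk [Module.Finite ℤ Λ] (y : AddChar Λ F) (V : Submodule ℤ Λ) (k : ℕ) :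
    ∀ (P : Submodule ℤ Λ) (A : Set F), P ≤ V → finrank ℤ V ≤ finrank ℤ P + k →
      (∀ p ∈ P, y p ∈ (pairTM F).closure A) →
      (pairTM F).eRk (A ∪ y '' V) ≤ (pairTM F).eRk A + k := by
  have key : ∀ (P : Submodule ℤ Λ) (A : Set F), (∀ p ∈ P, y p ∈ (pairTM F).closure A) →
      (∀ v ∈ V, ∃ a : ℤ, a ≠ 0 ∧ a • v ∈ P) →
      (pairTM F).eRk (A ∪ y '' V) ≤ (pairTM F).eRk A := fun P A hP h => by
    rw [← (pairTM F).eRk_closure_eq A]
    refine (pairTM F).eRk_mono (Set.union_subset (pairT_sub A) ?_)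
    rintro _ ⟨v, hv, rfl⟩
    obtain ⟨a, ha, hv⟩ := h v hv
    exact pairT_root ha (by rw [← AddChar.map_zsmul_eq_zpow]; exact hP _ hv)
  have step : ∀ (P : Submodule ℤ Λ), P ≤ V → ¬ (∀ v ∈ V, ∃ a : ℤ, a ≠ 0 ∧ a • v ∈ P) →
      ∃ v, P ⊔ Submodule.span ℤ {v} ≤ V ∧
        finrank ℤ P + 1 ≤ finrank ℤ ↥(P ⊔ Submodule.span ℤ {v}) := fun P hPV h => by
    push Not at h
    obtain ⟨v, hv, h⟩ := h
    exact ⟨v, sup_le hPV ((Submodule.span_singleton_le_iff_mem _ _).2 hv), pairT_sup P h⟩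
  induction k with
  | zero =>
    intro P A hPV hr hP
    refine (key P A hP ?_).trans le_self_add
    by_contra h
    obtain ⟨v, h1, h2⟩ := step P hPV h
    have := Submodule.finrank_mono h1
    omega
  | succ k ih =>
    intro P A hPV hr hP
    by_cases h : ∀ v ∈ V, ∃ a : ℤ, a ≠ 0 ∧ a • v ∈ P
    · exact (key P A hP h).trans le_self_add
    obtain ⟨v, h1, h2⟩ := step P hPV h
    have h3 := ih _ (insert (y v) A) h1 (by omega) fun p' hp' => by
      obtain ⟨p, hp, q, hq, rfl⟩ := Submodule.mem_sup.1 hp'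
      obtain ⟨a, rfl⟩ := Submodule.mem_span_singleton.1 hq
      rw [AddChar.map_add_eq_mul, AddChar.map_zsmul_eq_zpow]
      exact pairT_mul ((pairTM F).closure_mono (Set.subset_insert _ _) (hP p hp))
        (pairT_zpow (pairT_sub _ (Set.mem_insert _ _)) a)
    refine ((pairTM F).eRk_mono (Set.union_subset_union_left _ (Set.subset_insert _ _))).trans
      (h3.trans ?_)
    refine (add_le_add_left ((pairTM F).eRk_insert_le_add_one _ _) _).trans (le_of_eq ?_)
    push_cast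
    ring

omit [Algebra ℂ F] in
lemma pairT_ind {B ι : Type} [CommRing B] [Algebra B F] {T : F} (hT : Transcendental B T)
    (h0 : T ≠ 0) (J : Finset ι) (β : ι → B) (n : ι → ℤ)
    (h : ∑ i ∈ J, algebraMap B F (β i) * T ^ n i = 0) (s : ℤ) :
    ∑ i ∈ J with n i = s, β i = 0 := by
  set A : ℤ := |s| + ∑ i ∈ J, |n i|
  have hS : 0 ≤ ∑ i ∈ J, |n i| := sum_nonneg fun _ _ => abs_nonneg _
  have hs : 0 ≤ s + A := by have := neg_abs_le s; omega
  have hn : ∀ i ∈ J, 0 ≤ n i + A := fun i hi => by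
    have h1 := single_le_sum (f := fun i => |n i|) (fun _ _ => abs_nonneg _) hi
    have h2 := neg_abs_le (n i)
    have h3 := abs_nonneg s
    omega
  have hp := transcendental_iff.1 hT (∑ i ∈ J, monomial (n i + A).toNat (β i)) (by
    rw [map_sum, ← zero_mul (T ^ A), ← h, sum_mul]
    refine sum_congr rfl fun i hi => ?_
    rw [aeval_monomial, ← zpow_natCast, Int.toNat_of_nonneg (hn i hi), zpow_add₀ h0, mul_assoc])
  have hc := congrArg (fun p => coeff p (s + A).toNat) hp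
  simp only [finsetSum_coeff, coeff_monomial, coeff_zero] at hc
  rw [sum_filter]
  refine Eq.trans (sum_congr rfl fun i hi => if_congr ?_ rfl rfl) hc
  have := hn i hi
  omega

omit [Algebra ℂ F] in
lemma pairT_ne (y : AddChar Λ F) (l : Λ) : y l ≠ 0 := fun h => by
  have := y.map_add_eq_mul l (-l)
  simp [h] at this

open Classical in
lemma pairT_dich (S : Sys Λ) (y : AddChar Λ F) (hy : S.Zero y) (u : Λ →ₗ[ℤ] ℤ) (hu : u ≠ 0) :
    (S.ref u).Zero y ∨ Set.range y ⊆ (pairTM F).closure (y '' LinearMap.ker u) := by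
  obtain ⟨g, hg⟩ := (IsPrincipalIdealRing.principal (LinearMap.range u)).principal
  obtain ⟨b, hb⟩ : g ∈ LinearMap.range u := hg ▸ Submodule.mem_span_singleton_self g
  have hn : ∀ l, ∃ n : ℤ, n • g = u l := fun l =>
    Submodule.mem_span_singleton.1 (hg ▸ LinearMap.mem_range_self u l)
  choose n hn using hn
  have hg0 : g ≠ 0 := fun h => hu (LinearMap.ext fun l => by simp [← hn, h])
  have hV : ∀ l, l - n l • b ∈ LinearMap.ker u := fun l => by
    rw [LinearMap.mem_ker, map_sub, map_zsmul, hb, hn, sub_self]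
  have he : ∀ l, y l = y (l - n l • b) * y b ^ n l := fun l => by
    rw [← AddChar.map_zsmul_eq_zpow, ← AddChar.map_add_eq_mul, sub_add_cancel]
  by_cases hT : y b ∈ (pairTM F).closure (y '' LinearMap.ker u)
  · right
    rintro _ ⟨l, rfl⟩
    rw [he]
    exact pairT_mul (pairT_sub _ ⟨_, hV l, rfl⟩) (pairT_zpow hT _)
  left
  rintro ⟨j, s⟩
  rw [pairT_mem] at hT
  let β : S.ι → Algebra.adjoin ℂ (y '' LinearMap.ker u) := fun i =>
    ⟨algebraMap ℂ F (S.c i) * y (S.m i - n (S.m i) • b),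
      mul_mem (Subalgebra.algebraMap_mem _ _) (Algebra.subset_adjoin ⟨_, hV _, rfl⟩)⟩
  have h1 := pairT_ind hT (pairT_ne y b) (S.I.filter fun i => S.κ i = j) β (fun i => n (S.m i))
    (by
      rw [← hy j]
      refine sum_congr rfl fun i _ => ?_
      rw [he (S.m i), ← mul_assoc]
      rfl)
  suffices H : ∀ J : Finset S.ι, (∀ i, i ∈ J ↔ i ∈ S.I ∧ (S.κ i, u (S.m i)) = (j, s)) →
      ∑ i ∈ J, algebraMap ℂ F (S.c i) * y (S.m i) = 0 from
    H _ fun i => @mem_filter _ _ (fun _ => Classical.propDecidable _) _ _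
  intro J hJ
  rcases J.eq_empty_or_nonempty with h | ⟨i₀, h⟩
  · rw [h, sum_empty]
  have hs : u (S.m i₀) = s := (Prod.ext_iff.1 ((hJ _).1 h).2).2
  have h2 := congrArg (fun a => algebraMap _ F a * y b ^ n (S.m i₀)) (h1 (n (S.m i₀)))
  simp only [map_sum, map_zero, zero_mul, sum_mul, filter_filter] at h2
  refine Eq.trans (sum_congr (Finset.ext fun i => ?_) fun i hi => ?_) h2
  · rw [hJ, mem_filter, Prod.ext_iff, ← hs, ← hn, ← hn]
    simp [hg0]
  · rw [he (S.m i), ← mul_assoc, ← (mem_filter.1 hi).2.2]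
    rfl

end

theorem sPairT (h : SSat) : SPairT := by
  classical
  intro Λ _ _ _ S hS F _ _ x L t hx ht hd halg hL
  by_contra hlt
  push Not at hlt
  let x₁ : AddChar Λ F := x.compAddMonoidHom (AddMonoidHom.inl Λ Λ)
  let x₂ : AddChar Λ F := x.compAddMonoidHom (AddMonoidHom.inr Λ Λ)
  have z₁ : S.Zero x₁ := fun j =>
    (S.cs_pair_inl S.κ S.κ (x := x) (y := x₁) (fun _ => rfl) j).symm.trans (hx (Sum.inl j))
  have z₂ : S.Zero x₂ := fun j =>
    (S.cs_pair_inr S.κ S.κ (x := x) (y := x₂) (fun _ => rfl) j).symm.trans (hx (Sum.inr j))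
  have hxe : ∀ l : Λ × Λ, x l = x₁ l.1 * x₂ l.2 := fun l => by
    simp [x₁, x₂, ← AddChar.map_add_eq_mul]
  have hr : ∀ f : (Λ × Λ) →ₗ[ℤ] Λ, (∀ l ∈ L, f l = 0 → l = 0) →
      finrank ℤ L = finrank ℤ (L.map f) := fun f hf => by
    refine le_antisymm (LinearMap.finrank_le_finrank_of_injective (f := f.submoduleMap L) ?_)
      (Submodule.finrank_map_le _ _)
    rw [injective_iff_map_eq_zero]
    exact fun l hl => Subtype.ext (hf _ l.2 (congrArg Subtype.val hl))
  have r₁ := hr (LinearMap.fst ℤ Λ Λ) fun l hl h0 => hL l hl (Or.inl h0)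
  have r₂ := hr (LinearMap.snd ℤ Λ Λ) fun l hl h0 => hL l hl (Or.inr h0)
  set P₁ := L.map (LinearMap.fst ℤ Λ Λ)
  set P₂ := L.map (LinearMap.snd ℤ Λ Λ)
  have a₁ : ∀ p ∈ P₁, x₁ p ∈ (pairTM F).closure (Set.range x₂) := by
    rintro _ ⟨l, hl, rfl⟩
    have e : x₁ l.1 = x l * x₂ l.2 ^ (-1 : ℤ) := by
      rw [hxe, zpow_neg_one, mul_inv_cancel_right₀ (pairT_ne _ _)]
    exact e.symm ▸ pairT_mul (pairT_alg (halg l hl))
      (pairT_zpow (pairT_sub _ (Set.mem_range_self l.2)) _)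
  have a₂ : ∀ p ∈ P₂, x₂ p ∈ (pairTM F).closure (Set.range x₁) := by
    rintro _ ⟨l, hl, rfl⟩
    have e : x₂ l.2 = x l * x₁ l.1 ^ (-1 : ℤ) := by
      rw [hxe, zpow_neg_one, mul_comm (x₁ l.1), mul_inv_cancel_right₀ (pairT_ne _ _)]
    exact e.symm ▸ pairT_mul (pairT_alg (halg l hl))
      (pairT_zpow (pairT_sub _ (Set.mem_range_self l.1)) _)
  have tot : ∀ A : Set F, Set.range x₁ ⊆ (pairTM F).closure A →
      Set.range x₂ ⊆ (pairTM F).closure A → (t : ℕ∞) ≤ (pairTM F).eRk A := fun A h1 h2 => by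
    rw [← (pairTM F).eRk_closure_eq A]
    refine (pairT_td.1 ht).trans ((pairTM F).eRk_mono ?_)
    rintro _ ⟨l, rfl⟩
    rw [hxe]
    exact pairT_mul (h1 ⟨_, rfl⟩) (h2 ⟨_, rfl⟩)
  obtain ⟨v, hv⟩ := P₂.exists_of_finrank_lt (r₂ ▸ hlt)
  let W : Submodule ℤ Λ :=
    { carrier := {l | ∃ a : ℤ, a ≠ 0 ∧ a • l ∈ P₂}
      add_mem' := by
        rintro l l' ⟨a, ha, h1⟩ ⟨a', ha', h2⟩
        refine ⟨a * a', mul_ne_zero ha ha', ?_⟩
        rw [smul_add, mul_smul a a' l', mul_comm, mul_smul]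
        exact add_mem (P₂.smul_mem _ h1) (P₂.smul_mem _ h2)
      zero_mem' := ⟨1, one_ne_zero, by simp⟩
      smul_mem' := by
        rintro c l ⟨a, ha, h1⟩
        exact ⟨a, ha, by rw [smul_comm]; exact P₂.smul_mem _ h1⟩ }
  have hW : Sat W := by
    rintro k l hk ⟨a, ha, h1⟩
    exact ⟨a * k, mul_ne_zero ha hk, by rwa [mul_smul]⟩
  have hvW : v ∉ W := by
    rintro ⟨a, ha, h1⟩
    exact hv a ha h1
  obtain ⟨u, hu, huW⟩ := ((h Λ Unit ∅ fun _ => 0).2 W hW).2.2.1 v hvW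
  have hu0 : u ≠ 0 := fun h0 => hu (by simp [h0])
  rcases pairT_dich S x₂ z₂ u hu0 with hz | hz
  · obtain ⟨n, hn, hn'⟩ := pairT_fin (hS.2 u hu0 F x₂ hz)
    have h1 := pairT_rk x₁ ⊤ (finrank ℤ Λ - finrank ℤ L) P₁ _ le_top
      (by rw [finrank_top]; omega) a₁
    have h2 := (tot _ (fun a ⟨l, hl⟩ => pairT_sub _ (Or.inr ⟨l, trivial, hl⟩))
      fun a ha => pairT_sub _ (Or.inl ha)).trans h1
    rw [hn] at h2
    have h3 : t ≤ n + (finrank ℤ Λ - finrank ℤ L) := by exact_mod_cast h2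
    omega
  · obtain ⟨n, hn, hn'⟩ := pairT_fin (hS.1 F x₁ z₁)
    have h0 := (pairT_sup (LinearMap.ker u) (v := v) fun a ha h1 => by
      simp [ha, hu] at h1).trans (Submodule.finrank_le _)
    have h1 := pairT_rk x₂ (LinearMap.ker u) (finrank ℤ Λ - 1 - finrank ℤ L) P₂ _
      (fun p hp => huW p ⟨1, one_ne_zero, by simpa using hp⟩) (by omega) a₂
    have h2 := (tot _ (fun a ha => pairT_sub _ (Or.inl ha))
      (hz.trans ((pairTM F).closure_mono Set.subset_union_right))).trans h1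
    rw [hn] at h2
    have h3 : t ≤ n + (finrank ℤ Λ - 1 - finrank ℤ L) := by exact_mod_cast h2
    omega

end Pool.Agent.MP_c1891a_nt.G43
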